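import Pool.Agent.Q27.UC.Asm

/-!
# Good universal codes of linear length in free groups exist

`FreeGroup (Fin k)` is the free group of rank `k`, and `FreeGroup.norm w` is the length of the
reduced word representing `w`.  A test tuple is a list of elements.  For every `k ≥ 1` there is
a test tuple with at most `128 k` entries, all of word length at most `513 k`, whose detection
probability is at least `2 ^ (-25)`.
-/

set_option autoImplicit false

namespace Pool.Agent.Results.MP_6f9718_al.LinearLength

open Finset

open Classical in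
/-- The number of entries of the test tuple `A` which are not in the subgroup `H`, counted with
multiplicity. -/
noncomputable def missed {k : ℕ} (A : List (FreeGroup (Fin k)))
    (H : Subgroup (FreeGroup (Fin k))) : ℕ :=
  A.countP (fun w => decide (w ∉ H))

/-- The detection probability of a test tuple: the infimum over all proper subgroups `H` of the
proportion of entries which are not in `H`. -/
noncomputable def delta {k : ℕ} (A : List (FreeGroup (Fin k))) : ℝ :=
  ⨅ H : {H : Subgroup (FreeGroup (Fin k)) // H ≠ ⊤}, (missed A H.1 : ℝ) / A.length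

theorem exists_list {k : ℕ} (hk : 1 ≤ k) : ∃ A : List (FreeGroup (Fin k)),
    A ≠ [] ∧ A.length ≤ 128 * k ∧ (1 / 2 : ℝ) ^ 25 ≤ delta A ∧ ∀ w ∈ A, w.norm ≤ 513 * k := by
  classical
  set I := Nat.log 64 k with hI
  have h1 : 2 ^ (6 * I) ≤ k := by
    rw [pow_mul]
    exact Nat.pow_log_le_self 64 (by omega)
  have h2 : k < 2 ^ (6 * (I + 1)) := by
    rw [pow_mul]
    exact Nat.lt_pow_succ_log_self (by norm_num) k
  obtain ⟨w, hw1, hw2⟩ := Q27.UC.exists_tests (by omega) h2
  have hlen : ((univ : Finset (Fin (6 * I + 7) → Bool)).toList.map w).length =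
      2 ^ (6 * I + 7) := by
    rw [List.length_map, length_toList, card_univ, Fintype.card_fun, Fintype.card_bool,
      Fintype.card_fin]
  refine ⟨(univ : Finset (Fin (6 * I + 7) → Bool)).toList.map w, ?_, ?_, ?_, ?_⟩
  · intro h
    rw [h] at hlen
    have h3 : 0 < 2 ^ (6 * I + 7) := by positivity
    rw [List.length_nil] at hlen
    omega
  · rw [hlen, pow_add]
    omega
  · have hne : Nonempty {H : Subgroup (FreeGroup (Fin k)) // H ≠ ⊤} := by
      refine ⟨⟨⊥, fun h => ?_⟩⟩
      have h3 : FreeGroup.of (⟨0, by omega⟩ : Fin k) ∈ (⊤ : Subgroup (FreeGroup (Fin k))) :=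
        Subgroup.mem_top _
      rw [← h, Subgroup.mem_bot] at h3
      exact FreeGroup.of_ne_one _ h3
    apply le_ciInf
    rintro ⟨H, hH⟩
    have h3 := hw2 H hH
    have h4 : missed ((univ : Finset (Fin (6 * I + 7) → Bool)).toList.map w) H =
        (univ.filter fun b => w b ∉ H).card := by
      unfold missed
      rw [List.countP_map]
      have h5 : ((univ : Finset (Fin (6 * I + 7) → Bool)).toList.countP
          ((fun x => decide (x ∉ H)) ∘ w)) =
          Multiset.countP (fun b => w b ∉ H) (univ : Finset (Fin (6 * I + 7) → Bool)).val := by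
        conv_rhs => rw [← Finset.coe_toList]
        rw [Multiset.coe_countP]
        rfl
      rw [h5, Multiset.countP_eq_card_filter]
      rfl
    simp only
    rw [h4, hlen, le_div_iff₀ (by positivity)]
    have h6 : ((2 ^ (6 * I + 7) : ℕ) : ℝ) ≤
        ((2 ^ 25 * (univ.filter fun b => w b ∉ H).card : ℕ) : ℝ) := by exact_mod_cast h3
    push_cast at h6 ⊢
    rw [one_div, inv_pow, inv_mul_le_iff₀ (by positivity)]
    norm_num
    exact h6
  · intro x hx
    obtain ⟨b, -, rfl⟩ := List.mem_map.1 hx
    have := hw1 b
    omega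

/-- There is a good universal code whose words have linear length. -/
theorem result : ∃ A : (k : ℕ) → List (FreeGroup (Fin k)), ∀ k : ℕ, 1 ≤ k →
    A k ≠ [] ∧ (A k).length ≤ 128 * k ∧ (1 / 2 : ℝ) ^ 25 ≤ delta (A k) ∧
      ∀ w ∈ A k, w.norm ≤ 513 * k := by
  classical
  refine ⟨fun k => if h : 1 ≤ k then (exists_list h).choose else [], fun k hk => ?_⟩
  simp only
  rw [dif_pos hk]
  exact (exists_list hk).choose_spec

end Pool.Agent.Results.MP_6f9718_al.LinearLength
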